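import Pool.Agent.U762.AQ.Finf

set_option autoImplicit false

/-!
# For almost all small random perturbations of the unitary aliquot map all the sequences enter a cycle

Let `s*(n)` be the sum of the unitary divisors of `n` other than `n`. To the value `s*(n)` a random integer `ω(n)` is
added, uniform in `0, 1, ..., L(n) - 1`, where `L(n)` is only at least `100 log n` (and at most `n / 20`) for large
`n`. The `ω(n)` are independent and chosen once and for all. We show that almost surely all the sequences of the map
`n ↦ s*(n) + ω(n)` are finite sets, so that they enter cycles, and that the sequence of `n` has at most `100 log (n +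
2) + C` different terms, for all `n`. The same holds for every map `f` with values `f(n)` at most the sum of all the
proper divisors of `n` (for example the sums over any classes of proper divisors).

Proof. See `Pool/Agent/U762/AQ`: a potential which decreases in the mean by the factor `19 / 20`, and the comparison
of the orbits of the fixed random map with the annealed chain up to their first repetition.
-/

namespace Pool.Agent.Results.MP_113634_nt.RandomlyPerturbedMaps

open MeasureTheory Filter Finset
open scoped ENNReal

/-- The sum of the unitary divisors of `n` other than `n` (and `0` for `n = 0`). -/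
def unitary (n : ℕ) : ℕ := ∑ d ∈ n.properDivisors.filter (fun d => Nat.Coprime d (n / d)), d

/-- The sum of the proper divisors of `n` (and `0` for `n = 0`). -/
def proper (n : ℕ) : ℕ := ∑ d ∈ n.properDivisors, d

/-- The map `f` perturbed by `ω`. -/
def pert (f ω : ℕ → ℕ) (n : ℕ) : ℕ := f n + ω n

/-- The set of the terms `n, T(n), T(T(n)), ...` of the sequence of `n`, for `T = pert f ω`. -/
def terms (f ω : ℕ → ℕ) (n : ℕ) : Set ℕ := Set.range fun i : ℕ => (pert f ω)^[i] n

/-- The uniform law on `0, 1, ..., k - 1`. -/
noncomputable def uniform (k : ℕ) : Measure ℕ := (k : ℝ≥0∞)⁻¹ • ∑ u ∈ range k, Measure.dirac u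

/-- The law of independent perturbations `ω n`, uniform on `0, 1, ..., L n - 1`. -/
noncomputable def environment (L : ℕ → ℕ) : Measure (ℕ → ℕ) := Measure.infinitePi fun n => uniform (L n)

/-- Almost surely for some `C` all the sequences of the perturbed map `f` are finite sets, of at most
`100 log (n + 2) + C` elements. -/
def FiniteOrbits (f L : ℕ → ℕ) : Prop := ∀ᵐ ω ∂(environment L), ∃ C : ℕ, ∀ n : ℕ,
  (terms f ω n).Finite ∧ ((terms f ω n).ncard : ℝ) ≤ 100 * Real.log (n + 2) + C

/-- **Theorem.** Let `L n ≥ 1` for all `n`, and `100 log n ≤ L n ≤ n / 20` for all large `n`. Then `FiniteOrbits f L`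
for the unitary aliquot map `f`, and for every `f` which is at most the sum of the proper divisors. -/
theorem result (L : ℕ → ℕ) (hL : ∀ n, 1 ≤ L n)
    (h : ∀ᶠ n : ℕ in atTop, 100 * Real.log n ≤ L n ∧ (L n : ℝ) ≤ n / 20) :
    IsProbabilityMeasure (environment L) ∧ FiniteOrbits unitary L ∧
      ∀ f : ℕ → ℕ, (∀ n, f n ≤ proper n) → FiniteOrbits f L := by
  obtain ⟨n₀, hn₀⟩ := eventually_atTop.1 h
  have H : ∀ f : ℕ → ℕ, (∀ n, f n ≤ proper n) → FiniteOrbits f L := fun f hf =>
    Pool.Agent.U762.AQ.finf f hf L hL n₀ (fun n hn => (hn₀ n hn).1) (fun n hn => (hn₀ n hn).2)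
  refine ⟨?_, H unitary (fun n => ?_), H⟩
  · have : ∀ n, IsProbabilityMeasure (uniform (L n)) := fun n => Pool.Agent.U762.AQ.unif_prob (hL n)
    unfold environment
    infer_instance
  · exact Finset.sum_le_sum_of_subset (Finset.filter_subset _ _)

end Pool.Agent.Results.MP_113634_nt.RandomlyPerturbedMaps
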